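import Mathlib
import Pool.Agent.Lib.helper2.Dom

set_option autoImplicit false

namespace Pool.Agent.H.MP_29e5d4_co
open Pool.Agent.Lib.helper2.Dom

/-- four octahedra (blocks of six vertices), one vertex of each lying on a central 4-cycle -/
def adjB (a b : ℕ) : Bool :=
  if a / 6 = b / 6 then (a % 6) / 2 != (b % 6) / 2
  else a % 6 == 0 && b % 6 == 0 && ((a / 6 + 1) % 4 == b / 6 || (b / 6 + 1) % 4 == a / 6)

def G : SimpleGraph (Fin 24) where
  Adj a b := adjB a.val b.val = true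
  symm := ⟨by decide +kernel⟩
  loopless := ⟨by decide +kernel⟩

instance : DecidableRel G.Adj := fun a b => inferInstanceAs (Decidable (adjB a.val b.val = true))

def F : Finset (Sym2 (Fin 24)) := {s(6, 12), s(12, 18), s(0, 18)}

def nb1 (w : ℕ) : List ℕ := ([[0, 2, 3, 4, 5, 6, 18], [1, 2, 3, 4, 5], [0, 1, 2, 4, 5], [0, 1, 3, 4, 5], [0, 1, 2, 3, 4], [0, 1, 2, 3, 5], [0, 6, 8, 9, 10, 11, 12], [7, 8, 9, 10, 11], [6, 7, 8, 10, 11], [6, 7, 9, 10, 11], [6, 7, 8, 9, 10], [6, 7, 8, 9, 11], [6, 12, 14, 15, 16, 17, 18], [13, 14, 15, 16, 17], [12, 13, 14, 16, 17], [12, 13, 15, 16, 17], [12, 13, 14, 15, 16], [12, 13, 14, 15, 17], [0, 12, 18, 20, 21, 22, 23], [19, 20, 21, 22, 23], [18, 19, 20, 22, 23], [18, 19, 21, 22, 23], [18, 19, 20, 21, 22], [18, 19, 20, 21, 23]] : List (List ℕ)).getD w []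
def nb2 (w : ℕ) : List ℕ := ([[0, 2, 3, 4, 5, 6], [1, 2, 3, 4, 5], [0, 1, 2, 4, 5], [0, 1, 3, 4, 5], [0, 1, 2, 3, 4], [0, 1, 2, 3, 5], [0, 6, 8, 9, 10, 11], [7, 8, 9, 10, 11], [6, 7, 8, 10, 11], [6, 7, 9, 10, 11], [6, 7, 8, 9, 10], [6, 7, 8, 9, 11], [12, 14, 15, 16, 17], [13, 14, 15, 16, 17], [12, 13, 14, 16, 17], [12, 13, 15, 16, 17], [12, 13, 14, 15, 16], [12, 13, 14, 15, 17], [18, 20, 21, 22, 23], [19, 20, 21, 22, 23], [18, 19, 20, 22, 23], [18, 19, 21, 22, 23], [18, 19, 20, 21, 22], [18, 19, 20, 21, 23]] : List (List ℕ)).getD w []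
def C1 (u : ℕ) : ℕ := (65697130750616607114690778813127931553371680403807644335488568810925610891073079147731300856921224807128319150718446097374982539185851080648265397790878976288113145790857090 >>> (24 * u)) % 16777216
def C2 (u : ℕ) : ℕ := (65697130750616607114690778813127931553417118914754896249407339862575347746804995608924690911492454492773900086792363531145768119367888347864736285887981895453286434556870530 >>> (24 * u)) % 16777216

theorem k1 : nd nb1 C1 5 (2 ^ 24 - 1) = true := by decide +kernel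
theorem k2 : nd nb2 C2 6 (2 ^ 24 - 1) = true := by decide +kernel

theorem low1 (D : Finset (Fin 24)) (hD : ∀ w, w ∈ D ∨ ∃ u ∈ D, G.Adj u w) : 5 < D.card :=
  lt_card G nb1 C1 (by decide +kernel) (by decide +kernel) 5 k1 D hD

theorem low2 (D : Finset (Fin 24))
    (hD : ∀ w, w ∈ D ∨ ∃ u ∈ D, (G.deleteEdges (↑F : Set (Sym2 (Fin 24)))).Adj u w) :
    6 < D.card := by
  refine lt_card _ nb2 C2 ?_ ?_ 6 k2 D hD
  · simp only [SimpleGraph.deleteEdges_adj, Finset.mem_coe]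
    decide +kernel
  · simp only [SimpleGraph.deleteEdges_adj, Finset.mem_coe]
    decide +kernel

def Dv (v : Fin 24) : List (Fin 24) := ([[1, 7, 12, 13, 19], [0, 6, 7, 13, 19], [3, 7, 12, 13, 19], [2, 7, 12, 13, 19], [5, 7, 12, 13, 19], [4, 7, 12, 13, 19], [1, 7, 13, 18, 19], [0, 1, 6, 13, 19], [1, 9, 13, 18, 19], [1, 8, 13, 18, 19], [1, 11, 13, 18, 19], [1, 10, 13, 18, 19], [0, 1, 7, 13, 19], [0, 1, 7, 12, 19], [0, 1, 7, 15, 19], [0, 1, 7, 14, 19], [0, 1, 7, 17, 19], [0, 1, 7, 16, 19], [1, 6, 7, 13, 19], [0, 1, 7, 13, 18], [1, 6, 7, 13, 21], [1, 6, 7, 13, 20], [1, 6, 7, 13, 23], [1, 6, 7, 13, 22]] : List (List (Fin 24))).getD v.val []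

theorem up1 : ∀ v : Fin 24, (Dv v).length = 5 ∧ (∀ u ∈ Dv v, u ≠ v) ∧
    ∀ w : Fin 24, w ≠ v → w ∈ Dv v ∨ ∃ u ∈ Dv v, G.Adj u w := by decide +kernel

def D6 : Finset (Fin 24) := {0, 1, 7, 12, 13, 19}

theorem up2 : D6.card = 6 ∧ ∀ w : Fin 24, w ∈ D6 ∨ ∃ u ∈ D6, G.Adj u w := by decide +kernel

theorem F_sub : ∀ e ∈ F, e ∈ G.edgeSet := by
  intro e he
  simp only [F, Finset.mem_insert, Finset.mem_singleton] at he
  rcases he with rfl | rfl | rfl <;> (rw [SimpleGraph.mem_edgeSet]; decide)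

theorem F_card : F.card = 3 := by decide +kernel

theorem deg : ∀ v : Fin 24, 4 ≤ G.degree v := by decide +kernel

end Pool.Agent.H.MP_29e5d4_co
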